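import Pool.Agent.H45.SE.TarT

/-! # MP_eaeaf5_lc, module TEb: the copy is an isomorphism -/

set_option linter.unusedVariables false

open Ordinal Order Set
open scoped ZFSet

namespace SE

open SF

namespace H69e

/-- the claim of the induction at the label `l` -/
structure Cm (L π p1 l : V) : Prop where
  a : Lab L (app π l)
  b : lS (app π l) = im π (lS l)
  c : ∀ q ∈ Pos L (lS l), Le q (rst (lS l) p1) → ∀ b,
    (ZFSet.pair q b ∈ lY l ↔ ZFSet.pair (mv π q) b ∈ lY (app π l))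

end H69e

open H69e in
theorem pf_TEb (hBA : T_BA) (hBBa : T_BBa) (hBBc : T_BBc) (hBC : T_BC) (hBD : T_BD) (hBJ : T_BJ)
    (hBO : T_BO) (hTA : T_TA) (hTBa : T_TBa) (hTBd : T_TBd)
    (hTDa : T_TDa) (hTEa : T_TEa) : T_TEb := by
  intro D hD g π0 ρ0 ρ0' p0 ρ1 p1 fl hC
  have kN : ZFm D.N := hD.zfc.toZFCm.toZFm
  obtain ⟨hNL, -, hHN, hPR, -⟩ := hBJ D hD
  obtain ⟨b1, -, -, -, -, -, hCld⟩ := hBA
  have hTr0 : Tr ρ0 := (hCld D.L ρ0 hC.i.c).1
  have hm0 : ∀ i ∈ ρ0, app π0 i ∈ ρ0' := fun i hi => app_mem hC.i.i.fn hi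
  obtain ⟨e1, e2, e3, e4, e5⟩ := hTEa D.L g π0 ρ0 ρ0' p1 fl ρ1 hC.c hC.sub hTr0 hm0
    hC.i.i.inj hC.fre hC.p _ rfl
  -- `π` is in the ground model
  have hNρ1 : D.N ρ1 := hHN ρ1 hC.h
  have hNp1 : D.N p1 := kN.trans _ (hPR ρ1 hNρ1).1 p1 hC.p
  have hIn : In D.N (cons D.L (cons g (cons π0 (cons ρ0 (cons p1 (cons fl fun _ => ρ1)))))) :=
    In.cons (In.cons (In.cons (In.cons (In.cons (In.cons (fun _ => hNρ1) (hHN fl hC.fl)) hNp1)
      (hHN ρ0 hC.i.h)) hC.i.n) (hHN g hC.gH)) hNL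
  obtain ⟨-, -, t1, t2, -, -⟩ := hTA
  have hNπ : D.N (cpm D.L g π0 ρ0 p1 fl ρ1) := t1.1 D.N kN _ hIn
  set π := cpm D.L g π0 ρ0 p1 fl ρ1 with hπ
  set ρ1' := cpi D.L g π0 ρ0 p1 fl ρ1 with hρ1'
  obtain ⟨d1, d2, d3, d4, -⟩ := hTBd π ρ1 ρ1' e1
  obtain ⟨a1, a2, a3, a4, -, -⟩ := hTBa
  have hNim : ∀ s, D.N s → D.N (im π s) := fun s hs =>
    hBBc.2.2.2.1.1 D.N kN (cons π fun _ => s) (In.cons (fun _ => hs) hNπ)
  have hNlS : ∀ x, D.N x → D.N (lS x) := fun x hx =>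
    hBBa.2.2.2.2.1.1 D.N kN (fun _ => x) fun _ => hx
  have hFF : ∀ ρ p, p ∈ Pos D.L ρ → FF p ∧ dm p ⊆ ρ := fun ρ p hp =>
    ⟨((hBC.2.2.2.1 D.L ρ p).1 hp).1, ((hBC.2.2.2.1 D.L ρ p).1 hp).2.1⟩
  have hFp1 := hFF ρ1 p1 hC.p
  have hFp0 := hFF ρ0 p0 hC.i.i.pp
  have hTr1 : Tr ρ1 := (hCld D.L ρ1 hC.c).1
  have hpp : ∀ s, s ⊆ ρ1 → Tr s → rst s p1 ∈ Pos D.L s := fun s hs ht =>
    (hBD.2.2.1 D.L ρ1 s p1 hC.p fun i hi _ => ht i hi).1
  have hrr : ∀ S T p, S ⊆ T → rst S (rst T p) = rst S p := hBC.2.2.2.2.2.2.1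
  -- the restriction of `π` to the support of a label
  have hres : ∀ s, s ⊆ ρ1 → Tr s → (∀ j ∈ s, Cm D.L π p1 j) →
      Cld D.L (im π s) ∧ Iso D.L (rst s π) s (im π s) (rst s p1) := by
    intro s hs ht hj
    obtain ⟨f1, f2, f3, f4⟩ := d4 s hs
    have hmim : ∀ j, j ∈ im π s ↔ ∃ i ∈ s, app π i = j := a2 π s
    refine ⟨?_, ?_⟩
    · intro i' hi'
      obtain ⟨j, hjs, rfl⟩ := (hmim i').1 hi'
      refine ⟨(hj j hjs).a, ?_⟩
      rw [(hj j hjs).b]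
      intro y hy
      obtain ⟨i, hi, rfl⟩ := (a2 π (lS j) y).1 hy
      exact (hmim _).2 ⟨i, ht j hjs hi, rfl⟩
    · refine ⟨f2, f4 e2, ?_, ?_, hpp s hs ht, ?_⟩
      · intro j hjs
        obtain ⟨i, hi, rfl⟩ := (hmim j).1 hjs
        exact ⟨i, hi, f3 i hi⟩
      · intro i hi
        rw [f3 i hi, (hj i hi).b]
        exact (a4 π (rst s π) (lS i) fun y hy => (f3 y (ht i hi hy)).symm).1
      · intro i hi q hq hle b
        rw [hrr _ _ _ (ht i hi)] at hle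
        have hq2 := hFF _ q hq
        have e : mv (rst s π) q = mv π q :=
          ((a4 π (rst s π) (lS i) fun y hy => (f3 y (ht i hi hy)).symm).2 q hq2.1 hq2.2).symm
        rw [e, f3 i hi]
        exact (hj i hi).c q hq hle b
  -- transported names
  have htrn : ∀ s, s ⊆ ρ1 → Tr s → (∀ j ∈ s, Cm D.L π p1 j) → ∀ Y, Nam D.L s Y →
      Nam D.L (im π s) (trn D.L π (rst s p1) s (im π s) Y) ∧
      ∀ q ∈ Pos D.L s, Le q (rst s p1) → ∀ b,
        (ZFSet.pair q b ∈ Y ↔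
          ZFSet.pair (mv π q) b ∈ trn D.L π (rst s p1) s (im π s) Y) := by
    intro s hs ht hj Y hY
    obtain ⟨f1, f2, f3, f4⟩ := d4 s hs
    obtain ⟨g1, g2⟩ := hres s hs ht hj
    have hcs : Cld D.L s := (hCld D.L ρ1 hC.c).2.2 s hs ht
    have hps := hFF s _ (hpp s hs ht)
    have e : trn D.L (rst s π) (rst s p1) s (im π s) Y = trn D.L π (rst s p1) s (im π s) Y :=
      hTDa.1 D.L (rst s π) π (rst s p1) s (im π s) Y hps.1 hps.2 f3
    obtain ⟨h1, h2, -⟩ := hTDa.2 D.L (rst s π) s (im π s) (rst s p1) hcs g1 g2 Y hY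
    rw [e] at h1 h2
    refine ⟨h1, fun q hq hle b => ?_⟩
    have hq2 := hFF _ q hq
    have e' : mv (rst s π) q = mv π q := (a4 (rst s π) π s f3).2 q hq2.1 hq2.2
    rw [h2 q hq hle b, e']
  -- the names of the old labels
  have hold : ∀ l ∈ ρ0, ∀ q ∈ Pos D.L (lS l), Le q (rst (lS l) p1) →
      Le q (rst (lS l) p0) ∧ mv π q = mv π0 q := by
    intro l hl q hq hle
    have hsub : lS l ⊆ ρ0 := hTr0 l hl
    have hTl : Tr (lS l) := (hC.i.c l hl).1.tr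
    have hle2 : Le (rst (lS l) (rst ρ0 p1)) (rst (lS l) p0) :=
      hBD.2.2.2.2.2.1 (lS l) p0 (rst ρ0 p1) hFp0.1 (hBC.2.2.2.2.1 ρ0 p1 hFp1.1).1 hC.le
    rw [hrr _ _ _ hsub] at hle2
    have h0 : rst (lS l) p0 ∈ Pos D.L (lS l) :=
      (hBD.2.2.1 D.L ρ0 (lS l) p0 hC.i.i.pp fun i hi _ => hTl i hi).1
    have h1 : rst (lS l) p1 ∈ Pos D.L (lS l) := hpp _ (fun y hy => hC.sub (hsub hy)) hTl
    refine ⟨hBD.2.2.2.2.1 D.L (lS l) _ _ _ h0 h1 hq hle hle2, ?_⟩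
    have hq2 := hFF _ q hq
    exact (a4 π π0 (lS l) fun y hy => e4 y (hsub hy)).2 q hq2.1 hq2.2
  -- the claim
  have key : ∀ α : Ordinal.{0}, ∀ l ∈ ρ1, l.rank = α → Cm D.L π p1 l := by
    intro α
    induction α using WellFoundedLT.induction with
    | ind α ih =>
      intro l hl hα
      have hsub : lS l ⊆ ρ1 := (hC.c l hl).2
      have hlL : Lab D.L l := (hC.c l hl).1
      have hIH : ∀ j ∈ lS l, Cm D.L π p1 j := fun j hj =>
        ih j.rank (hα ▸ TT.rank_lS_lt hj) j (hsub hj) rfl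
      by_cases hl0 : l ∈ ρ0
      · have hal : app π l = app π0 l := e4 l hl0
        have hsub0 : lS l ⊆ ρ0 := hTr0 l hl0
        refine ⟨?_, ?_, ?_⟩
        · rw [hal]
          exact (hC.i.c' _ (hm0 l hl0)).1
        · rw [hal, hC.i.i.sup l hl0]
          exact ((a4 π π0 (lS l) fun y hy => e4 y (hsub0 hy)).1).symm
        · intro q hq hle b
          obtain ⟨h1, h2⟩ := hold l hl0 q hq hle
          rw [hal, h2]
          exact hC.i.i.ag l hl0 q hq h1 b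
      · obtain ⟨-, h2⟩ := e5 l hl hl0
        obtain ⟨s1, s2, s3, s4, s5, s6, s7⟩ := b1 (nS 0) (ZFSet.pair g l) (im π (lS l))
          (trn D.L π (rst (lS l) p1) (lS l) (im π (lS l)) (lY l))
          (sel (fl = ∅) (knm D.L (im π (lS l)) 0)
            (trn D.L π (rst (lS l) p1) (lS l) (im π (lS l)) (lZ l)))
          (knm D.L (im π (lS l)) 0) (knm D.L (im π (lS l)) 0)
        obtain ⟨g1, g2⟩ := hres (lS l) hsub hlL.tr hIH
        obtain ⟨n1, n2⟩ := htrn (lS l) hsub hlL.tr hIH (lY l) hlL.y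
        obtain ⟨m1, -⟩ := htrn (lS l) hsub hlL.tr hIH (lZ l) hlL.z
        have hNl : D.N l := kN.trans _ hNρ1 l hl
        have hkn : Nam D.L (im π (lS l)) (knm D.L (im π (lS l)) 0) :=
          ((hBO D hD (im π (lS l)) (hNim _ (hNlS l hNl)) g1).2.2.2.1 0).2.1
        have hb : lS (app π l) = im π (lS l) := by rw [h2, s3]
        refine ⟨⟨?_, ?_, ?_, ?_, ?_, ?_, ?_⟩, hb, ?_⟩
        · rw [h2, s1, s2, s3, s4, s5, s6, s7]
        · left
          rw [h2, s1]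
        · rw [hb]
          intro j hj
          exact (g1 j hj).2
        · rw [hb, h2, s4]
          exact n1
        · rw [hb, h2, s5]
          by_cases hf : fl = ∅
          · rw [sel_pos hf]
            exact hkn
          · rw [sel_neg hf]
            exact m1
        · rw [hb, h2, s6]
          exact hkn
        · rw [hb, h2, s7]
          exact hkn
        · intro q hq hle b
          rw [n2 q hq hle b, h2, s4]
  have key' : ∀ l ∈ ρ1, Cm D.L π p1 l := fun l hl => key _ l hl rfl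
  refine ⟨?_, ⟨e1, e2, e3, fun i hi => (key' i hi).b, hC.p, fun i hi => (key' i hi).c⟩, ?_⟩
  · intro j hj
    obtain ⟨l, hl, rfl⟩ := e3 j hj
    refine ⟨(key' l hl).a, ?_⟩
    rw [(key' l hl).b]
    exact (d4 (lS l) (hC.c l hl).2).1
  · intro hf hAg i hi q hq hle b
    by_cases hi0 : i ∈ ρ0
    · obtain ⟨h1, h2⟩ := hold i hi0 q hq hle
      rw [e4 i hi0, h2]
      exact hAg i hi0 q hq h1 b
    · obtain ⟨-, h2⟩ := e5 i hi hi0
      have hiL : Lab D.L i := (hC.c i hi).1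
      have hsub : lS i ⊆ ρ1 := (hC.c i hi).2
      obtain ⟨-, n2⟩ := htrn (lS i) hsub hiL.tr (fun j hj => key' j (hsub hj)) (lZ i) hiL.z
      rw [n2 q hq hle b, h2, (b1 _ _ _ _ _ _ _).2.2.2.2.1, sel_neg hf]

end SE
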