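import Pool.Agent.H45.SE.TarT

/-! # MP_eaeaf5_lc, module THc: copies of states in `C(s)` are legal -/

set_option linter.unusedVariables false

open Ordinal Order Set
open scoped ZFSet

namespace SE

open SF

theorem pf_THc (hBA : T_BA) (hBBa : T_BBa) (hBD : T_BD) (hBJ : T_BJ) (hBR : T_BR)
    (hSA : T_SA) (hSE : T_SE) (hTBa : T_TBa) (hTBb : T_TBb) (hTBc : T_TBc) (hTCa : T_TCa)
    (hTCb : T_TCb) (hTEc : T_TEc) (hTHa : T_THa) (hTHd : T_THd) (hTG : T_TG) (hZA : T_ZA) :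
    T_THc := by
  intro D hF s hs hsL hTs ρ' hρ' hc' hsρ' p' hp' hR g hg hfr
  have hD : D.Ok := hF.ok
  obtain ⟨-, hHt, hHN, -, hmain⟩ := hBJ D hD
  have kN : ZFm D.N := hD.zfc.toZFCm.toZFm
  obtain ⟨-, hCL, hleg, -, -⟩ := hZA D hF
  have hcs : Cld D.L s := (hBA.2.2.2.2.2.2 D.L D.Lam hCL).2.2 s hsL hTs
  have hprs : rst s p' ∈ D.P s := (hBD.2.2.1 D.L ρ' s p' hp' fun i hi _ => hTs i hi).1
  obtain ⟨hIN, hAZ, hidn, -⟩ := hTBc D hD s hs hcs (rst s p') hprs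
  have h1H : nS 1 ∈ D.H := (hBR D hD).2.2.2.2.2.2.2.2.2 1
  have hne1 : nS 1 ≠ ∅ := by
    intro h
    have h2 : nS 0 ∈ nS 1 := by
      rw [nS_mem_nS]
      exact Nat.zero_lt_one
    rw [h] at h2
    exact ZFSet.notMem_empty _ h2
  have hpd : D.Cpd g (idm s) s s (rst s p') ρ' p' (nS 1) :=
    { i := hIN
      h := hρ'
      c := hc'
      sub := hsρ'
      p := hp'
      le := (hBD.2.2.2.1 D.L s _ hprs).1
      gH := hg
      fre := hfr
      fl := h1H }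
  obtain ⟨hI, hsρ1, hap0, hAgZ, hsplit, hcomp⟩ := hTEc D hD g (idm s) s s (rst s p') ρ' p' (nS 1)
    hpd _ _ rfl rfl
  have hHa := hTHa D hD g (idm s) s s (rst s p') ρ' p' (nS 1) hpd _ _ rfl rfl
  set π := cpm D.L g (idm s) s p' (nS 1) ρ' with hπ
  set ρ1 := cpi D.L g (idm s) s p' (nS 1) ρ' with hρ1
  have hAg : AgZ D.L π ρ' p' := hAgZ hne1 hAZ
  have hap : ∀ i ∈ s, app π i = i := fun i hi => by rw [hap0 i hi, hidn i hi]
  obtain ⟨hTρ1, hBA1, -⟩ := hBA.2.2.2.2.2.2 D.L ρ1 hI.c'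
  obtain ⟨hTρ', hBA', -⟩ := hBA.2.2.2.2.2.2 D.L ρ' hI.c
  have him : im π ρ' = ρ1 := (hTBb D.L π ρ' ρ1 p' hI.c hI.c' hI.i).2.2.1
  have hρ1N : D.N ρ1 := hHN _ hI.h'
  have nS' : ∀ x, D.N x → D.N (lS x) := fun x hx => hBBa.2.2.2.2.1.1 D.N kN (fun _ => x) fun _ => hx
  have nY : ∀ x, D.N x → D.N (lY x) := fun x hx =>
    hBBa.2.2.2.2.2.1.1 D.N kN (fun _ => x) fun _ => hx
  have key : ∀ j ∈ ρ1, D.Leg j := by
    intro j hj
    by_cases hjs : j ∈ s
    · exact hleg j (hsL hjs)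
    obtain ⟨l, hl, hls, rfl⟩ := hsplit j hj hjs
    obtain ⟨hjL, hjsub, hcj, -, -⟩ := hBA1 _ hj
    have hjN : D.N (app π l) := kN.trans ρ1 hρ1N _ hj
    have hlSj : lS (app π l) = im π (lS l) := hI.i.sup l hl
    have hSj : D.N (lS (app π l)) := nS' _ hjN
    refine { h := hHt _ hI.h' hj, l := hjL, c := hcj, y := ?_, o := ?_ }
    · intro G hG
      obtain ⟨-, hHa2⟩ := hHa l hl hls G hG
      rcases hHa2 with ⟨h1, -⟩ | ⟨G1, hG1, hpG1, hgs⟩
      · exact (hTHd D hD (app π l) G hjN hjL hcj hG).1 h1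
      · intro hPro
        obtain ⟨-, hGn1'⟩ := hTCa D hD π ρ' ρ1 p' hI
        obtain ⟨hGn1, -⟩ := hGn1' G1 hG1 hpG1
        obtain ⟨hb1, hb2, -⟩ := hTCb D hD π ρ' ρ1 p' hI G1 hG1 hpG1
        have hSt : D.St ρ1 (gp D.L π p' ρ1 G1) := ⟨hI.h', hI.c', hGn1⟩
        obtain ⟨hStj, hEx⟩ := (hSA D hD ρ1 _ hSt).2.2.1 (lS (app π l)) hSj hjsub hjL.tr
        rw [hgs] at hStj hEx
        obtain ⟨-, -, -, -, v1, -, v2, -⟩ := (hSA D hD (lS (app π l)) G hStj).2.2.2.2 _ _ hEx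
        have e1 : ev G (lY (app π l)) = ev G1 (lY l) := by
          rw [← v1 (lS (app π l)) (lY (app π l)) hSj (fun _ h => h) hjL.tr (nY _ hjN) hjL.y,
            (hb1 l hl).2.1]
        have h2 : Pro (lS (app π l)) (gp D.L π p' ρ1 G1) (ev G (lY (app π l))) :=
          ((v2 (lS (app π l)) (fun _ h => h) hjL.tr).2 _).2 hPro
        have h3 : Pro (im π ρ') (gp D.L π p' ρ1 G1) (ev G (lY (app π l))) := by
          rw [him]
          obtain ⟨j', hj', h4⟩ := h2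
          exact ⟨j', hjsub hj', h4⟩
        have h4 := (hb2 hAg ρ' (fun _ h => h) _).1 h3
        rw [e1] at h4
        exact (hR G1 hG1 hpG1).con l hl h4
    · intro G hG k hk
      obtain ⟨-, hHa2⟩ := hHa l hl hls G hG
      rcases hHa2 with ⟨-, h1⟩ | ⟨G1, hG1, hpG1, hgs⟩
      · exact (hTHd D hD (app π l) G hjN hjL hcj hG).2 k hk (Or.inl h1)
      · by_cases hks : k ∈ s
        · have hk' := hk
          rw [hlSj] at hk'
          obtain ⟨k', hk'l, hkk⟩ := (hTBa.2.1 π (lS l) k).1 hk'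
          have hkρ : k ∈ ρ' := hsρ' hks
          have hk'ρ : k' ∈ ρ' := hTρ' l hl hk'l
          have hkk' : k' = k := hI.i.inj k' hk'ρ k hkρ (by rw [hkk, hap k hks])
          have hkl : k ∈ lS l := by
            rw [← hkk']
            exact hk'l
          have hSt : D.St ρ' G1 := ⟨hρ', hc', hG1⟩
          have h2 := ((hSE D hD hF.tab ρ' G1 hSt s hsρ').1 (hR G1 hG1 hpG1)).2 k hks l hl hkl
          have hId : Idn π (insert k (lS k)) := by
            intro i hi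
            rw [ZFSet.mem_insert_iff] at hi
            rcases hi with hi | hi
            · rw [hi]
              exact hap k hks
            · exact hap i (hTs k hks hi)
          have h3 := ((hTG D hD hF.tab k).1 π ρ' ρ1 p' hI hAg hkρ hId G1 hG1 hpG1 l hl hkl).1 h2
          rwa [hgs] at h3
        · obtain ⟨l', hl', hl's, hkl'⟩ := hsplit k (hjsub hk) hks
          have hE := (hcomp l' hl' hl's).2.1
          rw [← hkl'] at hE
          exact (hTHd D hD (app π l) G hjN hjL hcj hG).2 k hk (Or.inr hE)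
  intro j hj
  unfold Cx.Lam
  rw [ZFSet.mem_sep]
  exact ⟨hHt _ hI.h' hj, key j hj, fun j' hj' => key j' (hTρ1 j hj hj')⟩

end SE
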