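import Pool.Agent.H45.SE.TarT

/-! # MP_eaeaf5_lc, module TP3: copies which are disjoint from a given set -/

set_option linter.unusedVariables false

open Ordinal Order Set
open scoped ZFSet

namespace SE

open SF

theorem pf_TP3 (hBA : T_BA) (hBC : T_BC) (hBD : T_BD) (hBJ : T_BJ) (hBR : T_BR) (hTX : T_TX)
    (hTBa : T_TBa) (hTBb : T_TBb) (hTBc : T_TBc) (hTBe : T_TBe) (hTCa : T_TCa) (hTCb : T_TCb)
    (hTEc : T_TEc) (hTF : T_TF) (hTG : T_TG) : T_TP3 := by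
  intro D hF ρ ρ' ρ1 p' hρ hρ' hρ1 hc' hTρ hsub hsub1 hp'
  have hD : D.Ok := hF.ok
  obtain ⟨-, hHt, hHN, -, hmain⟩ := hBJ D hD
  have hcρ : Cld D.L ρ := (hBA.2.2.2.2.2.2 D.L ρ' hc').2.2 ρ hsub hTρ
  have hprs : rst ρ p' ∈ D.P ρ := (hBD.2.2.1 D.L ρ' ρ p' hp' fun i hi _ => hTρ i hi).1
  obtain ⟨hIN, hAZ, hidn, -⟩ := hTBc D hD ρ hρ hcρ (rst ρ p') hprs
  have h1H : nS 1 ∈ D.H := (hBR D hD).2.2.2.2.2.2.2.2.2 1
  have hne : nS 1 ≠ ∅ := by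
    intro h
    have h2 : nS 0 ∈ nS 1 := by
      rw [nS_mem_nS]
      exact Nat.zero_lt_one
    rw [h] at h2
    exact ZFSet.notMem_empty _ h2
  have hpd : D.Cpd ρ1 (idm ρ) ρ ρ (rst ρ p') ρ' p' (nS 1) :=
    { i := hIN
      h := hρ'
      c := hc'
      sub := hsub
      p := hp'
      le := (hBD.2.2.2.1 D.L ρ _ hprs).1
      gH := hρ1
      fre := hTX.2 _ _ _ (hTX.1 ρ1) hsub1
      fl := h1H }
  obtain ⟨hI, hsρ1, hap0, hAgZ, hsplit, hcomp⟩ := hTEc D hD ρ1 (idm ρ) ρ ρ (rst ρ p') ρ' p'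
    (nS 1) hpd _ _ rfl rfl
  set π := cpm D.L ρ1 (idm ρ) ρ p' (nS 1) ρ' with hπ
  set ρ'' := cpi D.L ρ1 (idm ρ) ρ p' (nS 1) ρ' with hρ''
  have hAg : AgZ D.L π ρ' p' := hAgZ hne hAZ
  have hId : Idn π ρ := fun i hi => by rw [hap0 i hi, hidn i hi]
  obtain ⟨c1, -, -, c4, -⟩ := hTBb D.L π ρ' ρ'' p' hI.c hI.c' hI.i
  have hFp := (hBC.2.2.2.1 D.L ρ' p').1 hp'
  refine ⟨ρ'', mv π p', hI.h', hI.c', hsρ1, ?_, c4, ?_, ?_⟩
  · intro j hj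
    rw [ZFSet.mem_inter] at hj
    by_contra hjρ
    obtain ⟨l, hl, hlρ, rfl⟩ := hsplit j hj.2 hjρ
    exact hTX.1 ρ1 _ hj.1 l (hcomp l hl hlρ).2.2.1
  · obtain ⟨-, -, -, -, a5⟩ := hTBa.1 π ρ' c1 p' hFp.1 hFp.2.1
    have e := a5 ρ hsub
    obtain ⟨e1, e2⟩ := hTBa.2.2.2.2.1 π ρ hId
    have hFr := (hBC.2.2.2.1 D.L ρ (rst ρ p')).1 hprs
    rw [e1, e2 _ hFr.1 hFr.2.1] at e
    exact e
  · intro G'' hG'' hp''
    obtain ⟨hI', -⟩ := hTCa D hD π ρ' ρ'' p' hI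
    obtain ⟨-, hB⟩ := hTCa D hD (inv π) ρ'' ρ' (mv π p') hI'
    obtain ⟨x1, x2, -, x4, x5⟩ := hB G'' hG'' hp''
    obtain ⟨-, y2, y3, -⟩ := hTBe D.L π ρ' ρ'' p' hI.c hI.c' hI.i
    rw [y2] at x2
    rw [y2, y3] at x5
    set G' := gp D.L (inv π) (mv π p') ρ' G'' with hG'
    refine ⟨G', x1, x2, ?_, x4, ?_, ?_⟩
    · have z := ((hTCb D hD π ρ' ρ'' p' hI G' x1 x2).2.2 ρ (hHN _ hρ) hsub hTρ hId).2.2.1
      rw [x5] at z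
      exact z.symm
    · intro s hs hsρ hTs hCl
      have hIds : Idn π s := fun i hi => hId i (hsρ hi)
      have z := ((hTG D hD hF.tab s).2.2 π ρ' ρ'' p' hI hAg (hHN _ hs)
        (fun i hi => hsub (hsρ hi)) hTs hIds G' x1 x2).1 hCl
      rwa [x5] at z
    · intro a x hS
      have z := ((hTF D hD π ρ' ρ'' p' hI hAg G' x1 x2).2 a x).2 hS
      rwa [x5] at z

end SE
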